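import Pool.Agent.N783.CF.Stm
import Pool.Agent.N707.PF.Maj

/-! Project CF (helper783), leaf DB (helper793): upper bound of the discriminant of `L`. -/

set_option autoImplicit false
set_option linter.all false

open Polynomial NumberField Matrix

namespace Pool.Agent.N793.CF

open Pool.Agent.N783.PF
open Pool.Agent.N783.CF

/-- the discriminant of the field is not larger than that of an integral basis of `L` over `ℚ` -/
theorem discr_le {L : Type} [Field L] [NumberField L] {ι : Type} [Fintype ι] [DecidableEq ι]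
    (b : Module.Basis ι ℚ L) (hb : ∀ i, IsIntegral ℤ (b i)) :
    |((NumberField.discr L : ℤ) : ℚ)| ≤ |Algebra.discr ℚ b| := by
  have hcard : Fintype.card (Module.Free.ChooseBasisIndex ℤ (𝓞 L)) = Fintype.card ι := by
    rw [← Module.finrank_eq_card_basis (integralBasis L), ← Module.finrank_eq_card_basis b]
  obtain ⟨e⟩ : Nonempty (Module.Free.ChooseBasisIndex ℤ (𝓞 L) ≃ ι) := ⟨Fintype.equivOfCardEq hcard⟩
  obtain ⟨BQ, hBQ⟩ : ∃ BQ : Module.Basis ι ℚ L, BQ = (integralBasis L).reindex e := ⟨_, rfl⟩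
  obtain ⟨y, hy⟩ : ∃ y : ι → 𝓞 L, ∀ k, algebraMap (𝓞 L) L (y k) = b k :=
    ⟨fun k => ⟨b k, hb k⟩, fun k => rfl⟩
  obtain ⟨P', hP'⟩ : ∃ P' : Matrix ι ι ℤ, ∀ l k, P' l k = (RingOfIntegers.basis L).repr (y k) (e.symm l) :=
    ⟨Matrix.of fun l k => (RingOfIntegers.basis L).repr (y k) (e.symm l), fun _ _ => rfl⟩
  have hrepr : ∀ k l, BQ.repr (b k) l = ((P' l k : ℤ) : ℚ) := by
    intro k l
    rw [hBQ, Module.Basis.repr_reindex_apply, ← hy, integralBasis_repr_apply, hP']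
    rfl
  have h1 : (b : ι → L) = (BQ : ι → L) ᵥ* (P'.map (Int.cast : ℤ → ℚ)).map (algebraMap ℚ L) := by
    funext k
    simp only [Matrix.vecMul, dotProduct, Matrix.map_apply]
    rw [← BQ.sum_repr (b k)]
    refine Finset.sum_congr rfl fun l _ => ?_
    rw [Algebra.smul_def, mul_comm, hrepr]
  have h2 : Algebra.discr ℚ BQ = ((NumberField.discr L : ℤ) : ℚ) := by
    rw [coe_discr, hBQ, Module.Basis.coe_reindex]
    exact Algebra.discr_reindex ℚ (integralBasis L) e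
  have h3 : Algebra.discr ℚ b = ((P'.det : ℤ) : ℚ) ^ 2 * ((NumberField.discr L : ℤ) : ℚ) := by
    rw [h1, Algebra.discr_of_matrix_vecMul, h2]
    congr 2
    exact ((Int.castRingHom ℚ).map_det P').symm
  have hdet : P'.det ≠ 0 := by
    intro h0
    have h4 := Algebra.discr_not_zero_of_basis ℚ b
    rw [h3, h0] at h4
    simp at h4
  rw [h3, abs_mul, abs_pow]
  have h5 : (1 : ℚ) ≤ |((P'.det : ℤ) : ℚ)| := by
    rw [← Int.cast_abs]
    exact_mod_cast Int.one_le_abs hdet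
  have h6 : (1 : ℚ) ≤ |((P'.det : ℤ) : ℚ)| ^ 2 := one_le_pow₀ h5
  exact le_mul_of_one_le_left (abs_nonneg _) h6

/-- the discriminant of a family with bounded conjugates -/
theorem discr_bound {L : Type} [Field L] [NumberField L] {ι : Type} [Fintype ι] [DecidableEq ι]
    (b : Module.Basis ι ℚ L) (β : ι → ℝ) (hβ : ∀ (τ : L →+* ℂ) (i : ι), ‖τ (b i)‖ ≤ β i) :
    ((|Algebra.discr ℚ b| : ℚ) : ℝ) ≤ ((Nat.factorial (Fintype.card ι) : ℝ) * ∏ i, β i) ^ 2 := by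
  have hcard : Fintype.card ι = Fintype.card (L →ₐ[ℚ] ℂ) := by
    rw [AlgHom.card, Module.finrank_eq_card_basis b]
  obtain ⟨e⟩ : Nonempty (ι ≃ (L →ₐ[ℚ] ℂ)) := ⟨Fintype.equivOfCardEq hcard⟩
  have h1 := Algebra.discr_eq_det_embeddingsMatrixReindex_pow_two ℚ ℂ (b : ι → L) e
  have h2 : ‖(Algebra.embeddingsMatrixReindex ℚ ℂ (b : ι → L) e).det‖ ≤
      (Nat.factorial (Fintype.card ι) : ℝ) * ∏ i, β i := by
    rw [Matrix.det_apply]
    refine (norm_sum_le _ _).trans ?_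
    have h3 : ∀ σ ∈ (Finset.univ : Finset (Equiv.Perm ι)), ‖Equiv.Perm.sign σ •
        ∏ i, Algebra.embeddingsMatrixReindex ℚ ℂ (b : ι → L) e (σ i) i‖ ≤ ∏ i, β i := by
      intro σ _
      have h4 : ‖Equiv.Perm.sign σ • ∏ i, Algebra.embeddingsMatrixReindex ℚ ℂ (b : ι → L) e (σ i) i‖ =
          ‖∏ i, Algebra.embeddingsMatrixReindex ℚ ℂ (b : ι → L) e (σ i) i‖ := by
        rcases Int.units_eq_one_or (Equiv.Perm.sign σ) with h | h <;> rw [h] <;> simp
      rw [h4, norm_prod, ← Equiv.prod_comp σ β]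
      refine Finset.prod_le_prod (fun _ _ => norm_nonneg _) fun i _ => ?_
      exact hβ ((e i : L →ₐ[ℚ] ℂ) : L →+* ℂ) (σ i)
    refine (Finset.sum_le_sum h3).trans (le_of_eq ?_)
    rw [Finset.sum_const, Finset.card_univ, Fintype.card_perm, nsmul_eq_mul]
  have h5 : ((|Algebra.discr ℚ b| : ℚ) : ℝ) = ‖(Algebra.embeddingsMatrixReindex ℚ ℂ (b : ι → L) e).det‖ ^ 2 := by
    rw [← norm_pow, ← h1]
    have h6 : (algebraMap ℚ ℂ) (Algebra.discr ℚ b) = (((Algebra.discr ℚ b : ℚ) : ℝ) : ℂ) := by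
      rw [eq_ratCast]; norm_cast
    rw [h6, Complex.norm_real, Real.norm_eq_abs, Rat.cast_abs]
  rw [h5]
  exact pow_le_pow_left₀ (norm_nonneg _) h2 2

theorem integral_theta {F L : Type} [Field F] [NumberField F] [Field L] [NumberField L] [Algebra F L]
    {g : ℕ} {f : (𝓞 F)[X]} {θ : L} (hG : IsGen g f θ) : IsIntegral ℤ θ := by
  have h1 : IsIntegral (𝓞 F) θ := by
    refine ⟨f, hG.mon, ?_⟩
    have h2 := hG.root
    rw [Polynomial.aeval_map_algebraMap] at h2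
    exact h2
  exact isIntegral_trans (R := ℤ) (A := 𝓞 F) θ h1

theorem t_DB : S_DB := by
  classical
  intro g F _ _ hg
  obtain ⟨c, hc⟩ : ∃ c : ℝ, c = 1 + ∑ σ : F →+* ℂ, ∑ i, ‖σ (integralBasis F i)‖ := ⟨_, rfl⟩
  have hc1 : 1 ≤ c := by
    rw [hc]
    have : 0 ≤ ∑ σ : F →+* ℂ, ∑ i, ‖σ (integralBasis F i)‖ :=
      Finset.sum_nonneg fun _ _ => Finset.sum_nonneg fun _ _ => norm_nonneg _
    linarith
  have hcb : ∀ (σ : F →+* ℂ) i, ‖σ (integralBasis F i)‖ ≤ c := by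
    intro σ i
    have h1 : ‖σ (integralBasis F i)‖ ≤ ∑ i, ‖σ (integralBasis F i)‖ :=
      Finset.single_le_sum (f := fun i => ‖σ (integralBasis F i)‖) (fun _ _ => norm_nonneg _) (Finset.mem_univ i)
    have h2 : ∑ i, ‖σ (integralBasis F i)‖ ≤ ∑ σ : F →+* ℂ, ∑ i, ‖σ (integralBasis F i)‖ :=
      Finset.single_le_sum (f := fun σ : F →+* ℂ => ∑ i, ‖σ (integralBasis F i)‖)
        (fun _ _ => Finset.sum_nonneg fun _ _ => norm_nonneg _) (Finset.mem_univ σ)
    rw [hc]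
    linarith
  obtain ⟨d, hd⟩ : ∃ d : ℕ, d = Module.finrank ℚ F := ⟨_, rfl⟩
  rw [← hd]
  obtain ⟨K, hK⟩ : ∃ K : ℝ, K = (Nat.factorial (d * (2 * g + 1)) : ℝ) *
      (c ^ (2 * g + 1) * 2 ^ (g * (2 * g + 1))) ^ d := ⟨_, rfl⟩
  have hK0 : 0 < K := by
    rw [hK]
    have := Nat.factorial_pos (d * (2 * g + 1))
    positivity
  refine ⟨K ^ 2, by positivity, ?_⟩
  intro B L _ _ _ f θ hB hG hH
  have hBr : (0 : ℝ) ≤ B := Nat.cast_nonneg B
  obtain ⟨b, hb⟩ : ∃ b : Module.Basis (Module.Free.ChooseBasisIndex ℤ (𝓞 F) × Fin (2 * g + 1)) ℚ L,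
      ∀ i j, b (i, j) = algebraMap F L (integralBasis F i) * θ ^ (j : ℕ) := by
    refine ⟨(integralBasis F).smulTower hG.basis, fun i j => ?_⟩
    rw [Module.Basis.smulTower_apply, hG.basis_apply, Algebra.smul_def]
  have hint : ∀ k, IsIntegral ℤ (b k) := by
    rintro ⟨i, j⟩
    rw [hb]
    refine IsIntegral.mul ?_ ((integral_theta hG).pow _)
    have h1 : IsIntegral ℤ (integralBasis F i) := by
      rw [integralBasis_apply]
      exact RingOfIntegers.isIntegral_coe _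
    exact h1.map (IsScalarTower.toAlgHom ℤ F L)
  have hβ : ∀ (τ : L →+* ℂ) (k : Module.Free.ChooseBasisIndex ℤ (𝓞 F) × Fin (2 * g + 1)),
      ‖τ (b k)‖ ≤ c * (2 * (B : ℝ)) ^ (k.2 : ℕ) := by
    rintro τ ⟨i, j⟩
    rw [hb, map_mul, map_pow, norm_mul, norm_pow]
    have h1 : ‖τ (algebraMap F L (integralBasis F i))‖ ≤ c := hcb (τ.comp (algebraMap F L)) i
    have h2 : ‖τ θ‖ ≤ 2 * B := by
      refine Pool.Agent.N707.PF.MAJ.root_bd hH (τ.comp (algebraMap F L)) ?_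
      rw [eval_map, ← hom_eval₂, ← aeval_def, hG.root, map_zero]
    exact mul_le_mul h1 (pow_le_pow_left₀ (norm_nonneg _) h2 _) (by positivity) (by linarith)
  have h1 := discr_le b hint
  have h2 := discr_bound b (fun k => c * (2 * (B : ℝ)) ^ (k.2 : ℕ)) hβ
  have hcardF : Fintype.card (Module.Free.ChooseBasisIndex ℤ (𝓞 F)) = d := by
    rw [hd, Module.finrank_eq_card_basis (integralBasis F)]
  have h3 : ∏ k : Module.Free.ChooseBasisIndex ℤ (𝓞 F) × Fin (2 * g + 1), (c * (2 * (B : ℝ)) ^ (k.2 : ℕ)) =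
      (c ^ (2 * g + 1) * (2 * (B : ℝ)) ^ (g * (2 * g + 1))) ^ d := by
    rw [Fintype.prod_prod_type]
    simp only []
    rw [Finset.prod_const, Finset.card_univ, hcardF]
    congr 1
    rw [Finset.prod_mul_distrib, Finset.prod_const, Finset.card_univ, Fintype.card_fin,
      Finset.prod_pow_eq_pow_sum]
    congr 2
    rw [Fin.sum_univ_eq_sum_range (fun j => j) (2 * g + 1)]
    have h4 := Finset.sum_range_id_mul_two (2 * g + 1)
    have h5 : (2 * g + 1) * (2 * g + 1 - 1) = (g * (2 * g + 1)) * 2 := by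
      rw [Nat.add_sub_cancel]; ring
    rw [h5] at h4
    exact Nat.eq_of_mul_eq_mul_right (by norm_num) h4
  rw [h3, Fintype.card_prod, Fintype.card_fin, hcardF] at h2
  have h4 : ((|NumberField.discr L| : ℤ) : ℝ) ≤ ((|Algebra.discr ℚ b| : ℚ) : ℝ) := by
    have h5 : ((|NumberField.discr L| : ℤ) : ℚ) ≤ |Algebra.discr ℚ b| := by
      rw [Int.cast_abs]; exact h1
    exact_mod_cast (Rat.cast_le (K := ℝ)).2 h5
  refine h4.trans (h2.trans (le_of_eq ?_))
  rw [hK]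
  have h5 : (2 * (B : ℝ)) ^ (g * (2 * g + 1)) = 2 ^ (g * (2 * g + 1)) * (B : ℝ) ^ (g * (2 * g + 1)) := mul_pow _ _ _
  rw [h5]
  have h6 : d * (2 * g * (2 * g + 1)) = (g * (2 * g + 1)) * d * 2 := by ring
  rw [h6, pow_mul (B : ℝ) _ 2, pow_mul (B : ℝ) _ d, mul_pow, mul_pow, mul_pow, mul_pow, mul_pow, mul_pow, mul_pow]
  ring

end Pool.Agent.N793.CF
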